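import Pool.Agent.X280.UC.Fam
import Pool.Agent.X280.BP.Abs
import Pool.Agent.H341R2.WeilSharp

/-!
# Frobenius traces
-/

set_option autoImplicit false
set_option linter.unusedSectionVars false

namespace Pool.Agent.X280.UC

open Finset Pool.Agent.Y722.HS Pool.Agent.X280.BP Polynomial

variable {N : ℕ}

/-- The number of the affine points modulo `p` of `y² = x^N + ∑ c_i x^i`. -/
noncomputable def npt (p : ℕ) (c : Fin N → ZMod p) : ℕ :=
  Nat.card {q : ZMod p × ZMod p // q.2 ^ 2 = ff c q.1}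

/-- The normalised trace of Frobenius. -/
noncomputable def tr (p : ℕ) (c : Fin N → ZMod p) : ℝ := ((p : ℝ) - npt p c) / √p

theorem npt_eq {p : ℕ} [hp : Fact p.Prime] (h3 : 3 ≤ p) (c : Fin N → ZMod p) :
    (npt p c : ℝ) = p + SA univ c := by
  classical
  unfold npt
  have e : {q : ZMod p × ZMod p // q.2 ^ 2 = ff c q.1} ≃ (x : ZMod p) × {y : ZMod p // y ^ 2 = ff c x} :=
    { toFun := fun q => ⟨q.1.1, ⟨q.1.2, q.2⟩⟩
      invFun := fun q => ⟨(q.1, q.2.1), q.2.2⟩
      left_inv := fun q => rfl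
      right_inv := fun q => rfl }
  have hk := ringChar_ne (p := p) h3
  have h1 : ∀ x : ZMod p, (Fintype.card {y : ZMod p // y ^ 2 = ff c x} : ℤ) =
      1 + quadraticChar (ZMod p) (ff c x) := by
    intro x
    have h2 := quadraticChar_card_sqrts hk (ff c x)
    rw [Set.toFinset_card] at h2
    rw [add_comm, ← h2]
    congr 1
  have h4 : (Nat.card {q : ZMod p × ZMod p // q.2 ^ 2 = ff c q.1} : ℤ) =
      p + ∑ x : ZMod p, quadraticChar (ZMod p) (ff c x) := by
    rw [Nat.card_congr e, Nat.card_eq_fintype_card, Fintype.card_sigma]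
    push_cast
    rw [Finset.sum_congr rfl fun x _ => h1 x, Finset.sum_add_distrib, Finset.sum_const,
      Finset.card_univ, ZMod.card]
    simp
  have h5 : ((Nat.card {q : ZMod p × ZMod p // q.2 ^ 2 = ff c q.1} : ℤ) : ℝ) =
      ((p + ∑ x : ZMod p, quadraticChar (ZMod p) (ff c x) : ℤ) : ℝ) := by rw [h4]
  push_cast at h5
  rw [h5]
  rfl

theorem tr_eq {p : ℕ} [hp : Fact p.Prime] (h3 : 3 ≤ p) (c : Fin N → ZMod p) :
    tr p c = -SA univ c / √p := by
  unfold tr
  rw [npt_eq h3]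
  congr 1
  ring

/-- **Weil's bound.** -/
theorem tr_le {p : ℕ} [hp : Fact p.Prime] (h3 : 3 ≤ p) (hN : Odd N) (c : Fin N → ZMod p) :
    |tr p c| ≤ (N : ℝ) - 1 := by
  have hp0 : (0 : ℝ) < p := p_pos'
  have hN1 : 1 ≤ N := hN.pos
  set g : (ZMod p)[X] := ∑ i : Fin N, C (c i) * X ^ (i : ℕ) with hg
  have hgd : g.degree < N := degree_sum_fin_lt c
  set f : (ZMod p)[X] := X ^ N + g with hf
  have hmon : f.Monic := monic_X_pow_add hgd
  have hdeg : f.natDegree = N := by
    have h1 : f.degree = N := by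
      rw [hf, degree_add_eq_left_of_degree_lt, degree_X_pow]
      rw [degree_X_pow]
      exact hgd
    exact natDegree_eq_of_degree_eq_some h1
  have hns : ∀ (a : ZMod p) (h : (ZMod p)[X]), f ≠ C a * h ^ 2 := by
    intro a h heq
    have ha : a ≠ 0 := by
      rintro rfl
      rw [C_0, zero_mul] at heq
      exact hmon.ne_zero heq
    have h1 : f.natDegree = 2 * h.natDegree := by
      rw [heq, natDegree_C_mul ha, natDegree_pow]
    rw [hdeg] at h1
    rw [h1] at hN
    exact absurd hN (by simp)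
  have hev : ∀ x : ZMod p, f.eval x = ff c x := by
    intro x
    rw [hf, hg]
    unfold ff
    simp [eval_finsetSum]
  have hw := Pool.Agent.H341R2.Sharp.weil_sharp_monic (F := ZMod p) (ringChar_ne h3) hmon
    (by rw [hdeg]; exact hN1) hns
  rw [hdeg, ZMod.card] at hw
  simp only [hev] at hw
  have hsp : 0 < √(p : ℝ) := Real.sqrt_pos.2 hp0
  rw [tr_eq h3, abs_div, abs_neg, abs_of_pos hsp, div_le_iff₀ hsp]
  exact hw

/-- The moments of the standard normal law. -/
noncomputable def gm (j : ℕ) : ℝ := if Even j then dd (j / 2) else 0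

theorem EM_tr (j : ℕ) : ∃ C : ℝ, 0 ≤ C ∧ ∀ N : ℕ, j ≤ N → ∀ p : ℕ, p.Prime → 3 ≤ p → ∀ [NeZero p],
    |EM p (fun c : Fin N → ZMod p => tr p c ^ j) - gm j| ≤ C / p := by
  rcases Nat.even_or_odd j with hj | hj
  · obtain ⟨h, rfl⟩ := hj
    obtain ⟨C, hC0, hC⟩ := asym h
    refine ⟨C, hC0, fun N hN p hp h3 _ => ?_⟩
    have : Fact p.Prime := ⟨hp⟩
    have hp0 : (0 : ℝ) < p := p_pos'
    have e : (fun c : Fin N → ZMod p => tr p c ^ (h + h)) =
        fun c => (1 / (p : ℝ) ^ h) * SA univ c ^ (h + h) := by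
      funext c
      rw [tr_eq h3, ← two_mul, pow_mul, pow_mul, div_pow, neg_sq, Real.sq_sqrt hp0.le, div_pow]
      ring
    rw [e, EM_mul', EM_SA h3 univ (h + h) hN, Finset.card_univ, ZMod.card]
    have h1 := hC p hp.one_lt.le p le_rfl
    unfold gm
    rw [if_pos ⟨h, rfl⟩, show (h + h) / 2 = h by omega, show h + h = 2 * h by ring]
    have hph : (0 : ℝ) < (p : ℝ) ^ h := by positivity
    have e2 : 1 / (p : ℝ) ^ h * MM (1 - 1 / p) p (2 * h) - dd h =
        (MM (1 - 1 / p) p (2 * h) - dd h * (p : ℝ) ^ h) / (p : ℝ) ^ h := by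
      field_simp
    rw [e2, abs_div, abs_of_pos hph, div_le_div_iff₀ hph hp0]
    exact h1
  · refine ⟨0, le_rfl, fun N hN p hp h3 _ => ?_⟩
    have : Fact p.Prime := ⟨hp⟩
    have hp0 : (0 : ℝ) < p := p_pos'
    have e : (fun c : Fin N → ZMod p => tr p c ^ j) =
        fun c => (-(1 / √p)) ^ j * SA univ c ^ j := by
      funext c
      rw [tr_eq h3, ← mul_pow]
      congr 1
      ring
    rw [e, EM_mul', EM_SA h3 univ j hN, MM_odd _ _ _ hj, mul_zero]
    unfold gm
    rw [if_neg (by rwa [Nat.not_even_iff_odd])]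
    simp

/-- The variance of the `m`-th power of a standard normal variable. -/
noncomputable def vm (m : ℕ) : ℝ := gm (2 * m) - gm m ^ 2

theorem gm_two (m : ℕ) : gm (2 * m) = dd m := by
  unfold gm
  rw [if_pos (even_two_mul m)]
  congr 1
  omega

theorem vm_pos {m : ℕ} (hm : 1 ≤ m) : 0 < vm m := by
  unfold vm
  rw [gm_two]
  unfold gm
  split_ifs with h
  · obtain ⟨k, rfl⟩ := h
    rw [show (k + k) / 2 = k by omega]
    have key : ∀ k : ℕ, dd (k + 1) ^ 2 < dd (k + 1 + (k + 1)) := by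
      intro k
      induction k with
      | zero => norm_num [dd]
      | succ k ih =>
        have e1 : dd (k + 1 + 1 + (k + 1 + 1)) =
            (2 * ((2 * k + 3 : ℕ) : ℝ) + 1) * ((2 * ((2 * k + 2 : ℕ) : ℝ) + 1) * dd (k + 1 + (k + 1))) := by
          rw [show k + 1 + 1 + (k + 1 + 1) = (2 * k + 3) + 1 by ring, dd,
            show 2 * k + 3 = (2 * k + 2) + 1 by ring, dd, show 2 * k + 2 = k + 1 + (k + 1) by ring]
        have e2 : dd (k + 1 + 1) = (2 * ((k + 1 : ℕ) : ℝ) + 1) * dd (k + 1) := by rw [dd]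
        rw [e1, e2, mul_pow]
        push_cast
        have hk0 : (0 : ℝ) ≤ k := Nat.cast_nonneg k
        have h1 : (2 * ((k : ℝ) + 1) + 1) ^ 2 ≤ (2 * (2 * (k : ℝ) + 3) + 1) * (2 * (2 * k + 2) + 1) := by
          nlinarith
        have h2 := dd_pos (k + 1)
        calc (2 * ((k : ℝ) + 1) + 1) ^ 2 * dd (k + 1) ^ 2
            ≤ (2 * (2 * (k : ℝ) + 3) + 1) * (2 * (2 * k + 2) + 1) * dd (k + 1) ^ 2 := by gcongr
          _ < (2 * (2 * (k : ℝ) + 3) + 1) * (2 * (2 * k + 2) + 1) * dd (k + 1 + (k + 1)) := by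
              gcongr
          _ = _ := by ring
    obtain ⟨l, rfl⟩ : ∃ l, k = l + 1 := ⟨k - 1, by omega⟩
    have := key l
    linarith
  · have := dd_pos m
    simpa using this

end Pool.Agent.X280.UC
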