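import Pool.Agent.X280.UC.Unif
import Pool.Agent.X280.UC.Local
import Pool.Agent.X280.BP.GaussFam

/-!
# The normal law for sums of powers of Frobenius traces
-/

set_option autoImplicit false
set_option linter.unusedSectionVars false

namespace Pool.Agent.X280.UC

open Finset Filter Topology Pool.Agent.Y722.HS Pool.Agent.X280.BP MeasureTheory ProbabilityTheory

theorem sum_inv_le (P : Finset ℕ) (hP : ∀ p ∈ P, 1 ≤ p) :
    ∑ p ∈ P, (1 : ℝ) / p ≤ 2 + Real.log P.card := by
  classical
  rcases Nat.eq_zero_or_pos P.card with h0 | h0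
  · rw [Finset.card_eq_zero] at h0
    rw [h0]
    simp
  · set n := P.card with hn
    have hn0 : (0 : ℝ) < n := by exact_mod_cast h0
    rw [← Finset.sum_filter_add_sum_filter_not P (fun p => p ≤ n)]
    have h1 : ∑ p ∈ P.filter (fun p => p ≤ n), (1 : ℝ) / p ≤ 1 + Real.log n := by
      have h2 : ∑ p ∈ P.filter (fun p => p ≤ n), (1 : ℝ) / p ≤ ∑ i ∈ Finset.Icc 1 n, (1 : ℝ) / i := by
        refine Finset.sum_le_sum_of_subset_of_nonneg ?_ fun i _ _ => by positivity
        intro p hp
        rw [Finset.mem_filter] at hp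
        rw [Finset.mem_Icc]
        exact ⟨hP p hp.1, hp.2⟩
      refine h2.trans ?_
      have h3 := harmonic_le_one_add_log n
      rw [harmonic_eq_sum_Icc] at h3
      push_cast at h3
      simpa [one_div] using h3
    have h4 : ∑ p ∈ P.filter (fun p => ¬ p ≤ n), (1 : ℝ) / p ≤ 1 := by
      calc ∑ p ∈ P.filter (fun p => ¬ p ≤ n), (1 : ℝ) / p ≤
          ∑ p ∈ P.filter (fun p => ¬ p ≤ n), (1 : ℝ) / n := by
            refine Finset.sum_le_sum fun p hp => ?_
            rw [Finset.mem_filter] at hp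
            have : (n : ℝ) ≤ p := by exact_mod_cast (by omega : n ≤ p)
            exact one_div_le_one_div_of_le hn0 this
        _ = ((P.filter (fun p => ¬ p ≤ n)).card : ℝ) * (1 / n) := by
            rw [Finset.sum_const, nsmul_eq_mul]
        _ ≤ (n : ℝ) * (1 / n) := by
            have : ((P.filter (fun p => ¬ p ≤ n)).card : ℝ) ≤ n := by
              exact_mod_cast Finset.card_filter_le _ _
            gcongr
        _ = 1 := by field_simp
    linarith

/-- The local mean value of the `m`-th power of the trace. -/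
noncomputable def mt (N m p : ℕ) : ℝ :=
  if h : p = 0 then 0 else (haveI : NeZero p := ⟨h⟩; EM p (fun c : Fin N → ZMod p => tr p c ^ m))

theorem mt_eq (N m p : ℕ) [NeZero p] : mt N m p = EM p (fun c : Fin N → ZMod p => tr p c ^ m) := by
  unfold mt
  rw [dif_neg (NeZero.ne p)]

/-- The local data. -/
noncomputable def Zt (N m : ℕ) (w : ℕ → ℝ) (p : ℕ) (c : Fin N → ZMod p) : ℝ :=
  w p * (tr p c ^ m - mt N m p)

/-- The sum over the primes in `P` of the powers of the traces. -/
noncomputable def Ts (N m : ℕ) (w : ℕ → ℝ) (P : Finset ℕ) (c : Fin N → ℤ) : ℝ :=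
  ∑ p ∈ P, w p * (tr p (red p c) ^ m - gm m)

theorem abs_EM_le (p : ℕ) [NeZero p] {N : ℕ} (f : (Fin N → ZMod p) → ℝ) {B : ℝ}
    (h : ∀ c, |f c| ≤ B) : |EM p f| ≤ B := by
  rw [abs_le]
  constructor
  · have h1 := EM_le_of_le p (fun c => -f c) B (fun c => (neg_le_abs _).trans (h c))
    have e : EM p (fun c => -f c) = -EM p f := by
      have := EM_mul' p (-1) f
      simpa using this
    rw [e] at h1
    linarith
  · exact EM_le_of_le p f B (fun c => (le_abs_self _).trans (h c))

theorem main_law (g m : ℕ) (hm : 1 ≤ m) (hmg : m ≤ g) {δ : ℝ} (hδ : 0 < δ) (u : ℝ) {ε : ℝ}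
    (hε : 0 < ε) :
    ∃ K : ℕ, ∀ (P : Finset ℕ) (w : ℕ → ℝ) (y H : ℕ), (∀ p ∈ P, p.Prime ∧ p ≠ 2 ∧ p ≤ y) →
      (∀ p ∈ P, |w p| ≤ 1) → δ * P.card ≤ ∑ p ∈ P, w p ^ 2 → K ≤ P.card → y ^ K ≤ H →
      |({c : Fin (2 * g + 1) → ℤ | (∀ i, |c i| ≤ H) ∧
        Ts (2 * g + 1) m w P c ≤ u * √(vm m * ∑ p ∈ P, w p ^ 2)}.ncard : ℝ) /
        (2 * H + 1 : ℝ) ^ (2 * g + 1) - (gaussianReal 0 1).real (Set.Iic u)| ≤ ε := by
  classical
  set N := 2 * g + 1 with hN
  have hNodd : Odd N := ⟨g, rfl⟩
  obtain ⟨C1, hC10, hC1⟩ := EM_tr m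
  obtain ⟨C2, hC20, hC2⟩ := EM_tr (2 * m)
  set G : ℝ := (2 * (g : ℝ)) ^ m with hG
  have hG1 : 1 ≤ G := by
    have : (1 : ℝ) ≤ g := by exact_mod_cast hm.trans hmg
    exact one_le_pow₀ (by linarith)
  set B : ℝ := 2 * G with hB
  have hB1 : 1 ≤ B := by linarith
  have hB0 : 0 < B := by linarith
  have hv := vm_pos hm
  set δ' : ℝ := vm m * δ / 2 with hδ'
  have hδ'0 : 0 < δ' := by positivity
  -- traces
  have htr : ∀ p : ℕ, p.Prime → 3 ≤ p → ∀ c : Fin N → ZMod p, |tr p c ^ m| ≤ G := by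
    intro p hp h3 c
    have : Fact p.Prime := ⟨hp⟩
    have h1 := tr_le h3 hNodd c
    rw [abs_pow]
    have h2 : ((N : ℕ) : ℝ) - 1 = 2 * (g : ℝ) := by rw [hN]; push_cast; ring
    rw [h2] at h1
    exact pow_le_pow_left₀ (abs_nonneg _) h1 _
  have hmt : ∀ p : ℕ, p.Prime → 3 ≤ p → |mt N m p| ≤ G := by
    intro p hp h3
    have : NeZero p := ⟨hp.ne_zero⟩
    rw [mt_eq]
    exact abs_EM_le p _ (fun c => htr p hp h3 c)
  have hmt2 : ∀ p : ℕ, p.Prime → 3 ≤ p → |mt N m p - gm m| ≤ C1 / p := by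
    intro p hp h3
    have : NeZero p := ⟨hp.ne_zero⟩
    rw [mt_eq]
    exact hC1 N (by omega) p hp h3
  set C3 : ℝ := C2 + C1 * (G + |gm m|) with hC3
  have hC30 : 0 ≤ C3 := by have := abs_nonneg (gm m); positivity
  have hvv : ∀ w : ℕ → ℝ, ∀ p : ℕ, p.Prime → 3 ≤ p → |w p| ≤ 1 →
      |vv (Zt N m w) p - w p ^ 2 * vm m| ≤ C3 / p := by
    intro w p hp h3 hw
    have : NeZero p := ⟨hp.ne_zero⟩
    have hp0 : (0 : ℝ) < p := by exact_mod_cast hp.pos
    have e1 : (fun c : Fin N → ZMod p => Zt N m w p c ^ 2) = fun c => w p ^ 2 *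
        ((tr p c ^ (2 * m) - (2 * mt N m p) * tr p c ^ m) + mt N m p ^ 2) := by
      funext c
      unfold Zt
      rw [mul_comm 2 m, pow_mul]
      ring
    have e2 : vv (Zt N m w) p = w p ^ 2 * (EM p (fun c : Fin N → ZMod p => tr p c ^ (2 * m)) -
        mt N m p ^ 2) := by
      rw [vv_eq, e1, EM_mul', EM_add', EM_sub', EM_mul', EM_const', ← mt_eq N m p]
      ring
    rw [e2]
    have h1 := hC2 N (by omega) p hp h3
    have h2 := hmt2 p hp h3
    have h4 := hmt p hp h3
    set X := EM p (fun c : Fin N → ZMod p => tr p c ^ (2 * m)) with hX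
    have e3 : w p ^ 2 * (X - mt N m p ^ 2) - w p ^ 2 * vm m =
        w p ^ 2 * ((X - gm (2 * m)) - (mt N m p - gm m) * (mt N m p + gm m)) := by
      unfold vm
      ring
    rw [e3, abs_mul]
    have h5 : |w p ^ 2| ≤ 1 := by
      rw [abs_pow]
      exact pow_le_one₀ (abs_nonneg _) hw
    have h6 : |(X - gm (2 * m)) - (mt N m p - gm m) * (mt N m p + gm m)| ≤ C3 / p := by
      refine (abs_sub _ _).trans ?_
      have h7 : |(mt N m p - gm m) * (mt N m p + gm m)| ≤ C1 / p * (G + |gm m|) := by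
        rw [abs_mul]
        have h8 : |mt N m p + gm m| ≤ G + |gm m| := (abs_add_le _ _).trans (by linarith)
        exact mul_le_mul h2 h8 (abs_nonneg _) (by positivity)
      calc |X - gm (2 * m)| + |(mt N m p - gm m) * (mt N m p + gm m)| ≤
          C2 / p + C1 / p * (G + |gm m|) := add_le_add h1 h7
        _ = C3 / p := by rw [hC3]; ring
    calc |w p ^ 2| * |(X - gm (2 * m)) - (mt N m p - gm m) * (mt N m p + gm m)| ≤ 1 * (C3 / p) :=
          mul_le_mul h5 h6 (abs_nonneg _) zero_le_one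
      _ = C3 / p := one_mul _
  -- the uniform law
  obtain ⟨k, hk⟩ := unif_law (ι := Fin N) hB1 hδ'0 u hε
  -- the level
  set Lf : ℕ → ℝ := fun n => (2 + Real.log n) / √(n : ℝ) with hLf
  have hL0 : Tendsto Lf atTop (𝓝 0) := by
    have h1 : Tendsto (fun x : ℝ => (2 + Real.log x) / √x) atTop (𝓝 0) := by
      have h2 : Tendsto (fun x : ℝ => 2 / √x) atTop (𝓝 0) :=
        tendsto_const_nhds.div_atTop Real.tendsto_sqrt_atTop
      have h3 : Tendsto (fun x : ℝ => Real.log x / √x) atTop (𝓝 0) := by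
        have h4 := (isLittleO_log_rpow_atTop (r := 1 / 2) (by norm_num)).tendsto_div_nhds_zero
        refine h4.congr fun x => ?_
        rw [Real.sqrt_eq_rpow]
      have h5 := h2.add h3
      rw [add_zero] at h5
      refine h5.congr fun x => ?_
      rw [add_div]
    exact h1.comp tendsto_natCast_atTop_atTop
  set A : ℝ := C1 / √δ' + B * C3 / (2 * (δ' * √δ')) with hA
  have hA0 : 0 ≤ A := by positivity
  have ev1 : ∀ᶠ n : ℕ in atTop, A * Lf n ≤ 1 / (k + 1) := by
    have h1 := hL0.const_mul A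
    rw [mul_zero] at h1
    exact h1.eventually (ge_mem_nhds (by positivity))
  have ev2 : ∀ᶠ n : ℕ in atTop, C3 * (2 + Real.log n) ≤ δ' * n := by
    have h1 := hL0.const_mul C3
    rw [mul_zero] at h1
    filter_upwards [h1.eventually (ge_mem_nhds hδ'0), eventually_ge_atTop 1] with n hn hn1
    have hn1' : (1 : ℝ) ≤ n := by exact_mod_cast hn1
    have hn0 : (0 : ℝ) < n := by linarith
    have hs : 0 < √(n : ℝ) := Real.sqrt_pos.2 hn0
    have hs2 : √(n : ℝ) ≤ n := by
      rw [Real.sqrt_le_left hn0.le]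
      nlinarith
    rw [hLf] at hn
    dsimp only at hn
    rw [mul_div_assoc', div_le_iff₀ hs] at hn
    exact hn.trans (mul_le_mul_of_nonneg_left hs2 hδ'0.le)
  obtain ⟨n0, hn0⟩ := eventually_atTop.1 (ev1.and ev2)
  refine ⟨max (max k n0) 1, fun P w y H hP hw hvar hcard hH => ?_⟩
  have hk1 : k ≤ P.card := ((le_max_left k n0).trans (le_max_left _ _)).trans hcard
  have hn1 : n0 ≤ P.card := ((le_max_right k n0).trans (le_max_left _ _)).trans hcard
  have h1c : 1 ≤ P.card := (le_max_right _ _).trans hcard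
  obtain ⟨hA1, hA2⟩ := hn0 P.card hn1
  have hP3 : ∀ p ∈ P, 3 ≤ p := fun p hp => by
    have h1 := (hP p hp).1.two_le
    have h2 := (hP p hp).2.1
    omega
  set n : ℝ := (P.card : ℝ) with hn
  have hn1' : 1 ≤ n := by rw [hn]; exact_mod_cast h1c
  have hnp : 0 < n := by linarith
  set L : ℝ := ∑ p ∈ P, (1 : ℝ) / p with hL
  have hLn : L ≤ 2 + Real.log n := sum_inv_le P fun p hp => by have := hP3 p hp; omega
  have hL00 : 0 ≤ L := Finset.sum_nonneg fun p _ => by positivity
  set V := VP (Zt N m w) P with hV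
  set V' := vm m * ∑ p ∈ P, w p ^ 2 with hV'
  have hVV : |V - V'| ≤ C3 * L := by
    rw [hV, hV', hL, Finset.mul_sum, Finset.mul_sum]
    unfold VP
    rw [← Finset.sum_sub_distrib]
    refine (Finset.abs_sum_le_sum_abs _ _).trans (Finset.sum_le_sum fun p hp => ?_)
    have h1 := hvv w p (hP p hp).1 (hP3 p hp) (hw p hp)
    rw [mul_comm (vm m)]
    refine h1.trans (le_of_eq ?_)
    ring
  have hV'n : 2 * δ' * n ≤ V' := by
    rw [hV', hδ']
    calc 2 * (vm m * δ / 2) * n = vm m * (δ * n) := by ring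
      _ ≤ _ := mul_le_mul_of_nonneg_left hvar hv.le
  have hVn : δ' * n ≤ V := by
    have h1 := (abs_le.1 hVV).1
    have h2 : C3 * L ≤ C3 * (2 + Real.log n) := mul_le_mul_of_nonneg_left hLn hC30
    linarith
  have hdn : 0 < δ' * n := by positivity
  have hV0 : 0 < V := by linarith
  have hV'0 : 0 < V' := by nlinarith
  have hsV : √(δ' * n) ≤ √V := Real.sqrt_le_sqrt hVn
  have hsV' : √(δ' * n) ≤ √V' := Real.sqrt_le_sqrt (by nlinarith)
  have hsd : 0 < √(δ' * n) := Real.sqrt_pos.2 hdn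
  have hsV0 : 0 < √V := by linarith
  have hsV'0 : 0 < √V' := by linarith
  have hSbd : ∀ c : Fin N → ℤ, |SP (Zt N m w) P c| ≤ B * n := by
    intro c
    unfold SP
    refine (Finset.abs_sum_le_sum_abs _ _).trans ?_
    calc ∑ p ∈ P, |Zt N m w p (red p c)| ≤ ∑ p ∈ P, B := by
          refine Finset.sum_le_sum fun p hp => ?_
          unfold Zt
          rw [abs_mul]
          have h1 := htr p (hP p hp).1 (hP3 p hp) (red p c)
          have h2 := hmt p (hP p hp).1 (hP3 p hp)
          have h4 : |tr p (red p c) ^ m - mt N m p| ≤ B := (abs_sub _ _).trans (by linarith)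
          calc |w p| * |tr p (red p c) ^ m - mt N m p| ≤ 1 * B :=
                mul_le_mul (hw p hp) h4 (abs_nonneg _) zero_le_one
            _ = B := one_mul _
      _ = B * n := by rw [Finset.sum_const, nsmul_eq_mul]; ring
  have hTS : ∀ c : Fin N → ℤ, |Ts N m w P c - SP (Zt N m w) P c| ≤ C1 * L := by
    intro c
    unfold Ts SP Zt
    rw [← Finset.sum_sub_distrib, hL, Finset.mul_sum]
    refine (Finset.abs_sum_le_sum_abs _ _).trans (Finset.sum_le_sum fun p hp => ?_)
    have e : w p * (tr p (red p c) ^ m - gm m) - w p * (tr p (red p c) ^ m - mt N m p) =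
        w p * (mt N m p - gm m) := by ring
    rw [e, abs_mul]
    have h1 := hmt2 p (hP p hp).1 (hP3 p hp)
    calc |w p| * |mt N m p - gm m| ≤ 1 * (C1 / p) :=
          mul_le_mul (hw p hp) h1 (abs_nonneg _) zero_le_one
      _ = C1 * (1 / p) := by ring
  have hsqrt : √(δ' * n) = √δ' * √n := Real.sqrt_mul hδ'0.le n
  have hsn : 0 < √n := Real.sqrt_pos.2 hnp
  have hsnn : √n * √n = n := Real.mul_self_sqrt hnp.le
  have hsdd : √δ' * √δ' = δ' := Real.mul_self_sqrt hδ'0.le
  have hsd' : 0 < √δ' := Real.sqrt_pos.2 hδ'0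
  have hnear : ∀ c : Fin N → ℤ, |Ts N m w P c / √V' - SP (Zt N m w) P c / √V| ≤ 1 / (k + 1) := by
    intro c
    set S := SP (Zt N m w) P c with hS
    have e : Ts N m w P c / √V' - S / √V = (Ts N m w P c - S) / √V' + S * (√V - √V') / (√V * √V') := by
      field_simp
      ring
    rw [e]
    have b1 : |(Ts N m w P c - S) / √V'| ≤ C1 * L / √(δ' * n) := by
      rw [abs_div, abs_of_pos hsV'0]
      exact div_le_div₀ (by positivity) (hTS c) hsd hsV'
    have b2 : |√V - √V'| ≤ C3 * L / (2 * √(δ' * n)) := by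
      have h1 : (√V - √V') * (√V + √V') = V - V' := by
        have h2 := Real.mul_self_sqrt hV0.le
        have h3 := Real.mul_self_sqrt hV'0.le
        nlinarith
      have h2 : |√V - √V'| * (√V + √V') = |V - V'| := by
        rw [← h1, abs_mul, abs_of_pos (by linarith : 0 < √V + √V')]
      rw [le_div_iff₀ (by positivity)]
      calc |√V - √V'| * (2 * √(δ' * n)) ≤ |√V - √V'| * (√V + √V') :=
            mul_le_mul_of_nonneg_left (by linarith) (abs_nonneg _)
        _ = |V - V'| := h2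
        _ ≤ _ := hVV
    have b3 : |S * (√V - √V') / (√V * √V')| ≤
        (B * n) * (C3 * L / (2 * √(δ' * n))) / (√(δ' * n) * √(δ' * n)) := by
      rw [abs_div, abs_mul, abs_of_pos (mul_pos hsV0 hsV'0)]
      refine div_le_div₀ (by positivity) ?_ (by positivity) ?_
      · exact mul_le_mul (hSbd c) b2 (abs_nonneg _) (by positivity)
      · exact mul_le_mul hsV hsV' hsd.le hsV0.le
    have b4 : C1 * L / √(δ' * n) + (B * n) * (C3 * L / (2 * √(δ' * n))) / (√(δ' * n) * √(δ' * n)) =
        A * (L / √n) := by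
      rw [hsqrt, hA]
      have hnn : n = √n * √n := hsnn.symm
      have hdd : δ' = √δ' * √δ' := hsdd.symm
      set sn := √n with hsn'
      set sd := √δ' with hsd''
      rw [hnn, hdd]
      field_simp
    have b5 : A * (L / √n) ≤ A * Lf P.card := by
      rw [hLf]
      dsimp only
      rw [← hn]
      exact mul_le_mul_of_nonneg_left (div_le_div_of_nonneg_right hLn hsn.le) hA0
    calc _ ≤ |(Ts N m w P c - S) / √V'| + |S * (√V - √V') / (√V * √V')| := abs_add_le _ _
      _ ≤ _ := add_le_add b1 b3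
      _ = A * (L / √n) := b4
      _ ≤ _ := b5.trans hA1
  have hyH : y ^ k ≤ H := by
    obtain ⟨p, hp⟩ : P.Nonempty := by rw [← Finset.card_pos]; omega
    have hy1 : 1 ≤ y := by
      have h1 := (hP p hp).2.2
      have h2 := (hP p hp).1.pos
      omega
    exact (Nat.pow_le_pow_right hy1 ((le_max_left k n0).trans (le_max_left _ _))).trans hH
  have hOk : (⟨P, y, H, Zt N m w, fun c => Ts N m w P c / √V'⟩ : Data (Fin N)).Ok B δ' k :=
    { prime := fun p hp => (hP p hp).1
      le := fun p hp => (hP p hp).2.2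
      bound := fun p hp c => by
        show |Zt N m w p c| ≤ B
        unfold Zt
        rw [abs_mul]
        have h1 := htr p (hP p hp).1 (hP3 p hp) c
        have h2 := hmt p (hP p hp).1 (hP3 p hp)
        have h4 : |tr p c ^ m - mt N m p| ≤ B := (abs_sub _ _).trans (by linarith)
        calc |w p| * |tr p c ^ m - mt N m p| ≤ 1 * B :=
              mul_le_mul (hw p hp) h4 (abs_nonneg _) zero_le_one
          _ = B := one_mul _
      mean := fun p hp _ => by
        show EM p (Zt N m w p) = 0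
        have e : Zt N m w p = fun c => w p * (tr p c ^ m - mt N m p) := rfl
        rw [e, EM_mul', EM_sub', EM_const', ← mt_eq, sub_self, mul_zero]
      var := hVn
      many := hk1
      high := hyH
      near := hnear }
  have hfin := hk _ hOk
  dsimp only at hfin
  rw [measureReal_def, law_apply H _ _ measurableSet_Iic,
    ENNReal.toReal_ofReal (by positivity), Fintype.card_fin] at hfin
  rw [ncard_box]
  have e : ((Pool.Agent.Y722.HS.box (Fin N) H).filter (fun c => Ts N m w P c ≤ u * √V')) =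
      (Pool.Agent.Y722.HS.box (Fin N) H).filter (fun c => Ts N m w P c / √V' ∈ Set.Iic u) := by
    apply Finset.filter_congr
    intro c _
    rw [Set.mem_Iic, div_le_iff₀ hsV'0]
  rw [e]
  exact hfin

end Pool.Agent.X280.UC
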