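import Mathlib

/-!
# Moments of sums of independent signs
-/

set_option autoImplicit false

namespace Pool.Agent.X280.UC

open Finset

/-- `1, 1, 3, 15, 105, ...`: the product of the odd numbers below `2 h`. -/
def dd : ℕ → ℝ
  | 0 => 1
  | h + 1 => (2 * h + 1) * dd h

theorem dd_pos (h : ℕ) : 0 < dd h := by
  induction h with
  | zero => exact one_pos
  | succ h ih => rw [dd]; positivity

/-- The moments of a sum of `n` independent variables `0, 1, -1`, which are not `0` with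
probability `θ`. -/
def MM (θ : ℝ) : ℕ → ℕ → ℝ
  | 0, j => if j = 0 then 1 else 0
  | n + 1, j => MM θ n j + θ * ∑ k ∈ Icc 1 (j / 2), (j.choose (2 * k) : ℝ) * MM θ n (j - 2 * k)

theorem MM_zero (θ : ℝ) (n : ℕ) : MM θ n 0 = 1 := by
  induction n with
  | zero => simp [MM]
  | succ n ih => rw [MM, ih]; simp

theorem MM_odd (θ : ℝ) (n : ℕ) : ∀ j, Odd j → MM θ n j = 0 := by
  induction n with
  | zero => 
    intro j hj
    rw [MM, if_neg]
    rintro rfl
    exact absurd hj (by decide)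
  | succ n ih =>
    intro j hj
    rw [MM, ih j hj, zero_add, Finset.sum_eq_zero, mul_zero]
    intro k hk
    rw [Finset.mem_Icc] at hk
    have h1 : Odd (j - 2 * k) := by
      obtain ⟨m, rfl⟩ := hj
      exact ⟨m - k, by omega⟩
    rw [ih _ h1, mul_zero]

theorem pow_diff (h : ℕ) (i p : ℕ) (hip : i + 1 ≤ p) :
    |((i : ℝ) + 1) ^ (h + 1) - (i : ℝ) ^ (h + 1) - (h + 1) * (i : ℝ) ^ h| * (p : ℝ) ^ 2 ≤
      ((h : ℝ) + 1) ^ 2 * (p : ℝ) ^ (h + 1) := by
  have hp0 : (0 : ℝ) < p := by exact_mod_cast (by omega : 0 < p)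
  have hi : (i : ℝ) + 1 ≤ p := by exact_mod_cast hip
  have hi0 : (0 : ℝ) ≤ i := Nat.cast_nonneg i
  induction h with
  | zero => simp
  | succ h ih =>
    have e : ((i : ℝ) + 1) ^ (h + 1 + 1) - (i : ℝ) ^ (h + 1 + 1) - ((h + 1 : ℕ) + 1) * (i : ℝ) ^ (h + 1) =
        ((i : ℝ) + 1) * (((i : ℝ) + 1) ^ (h + 1) - (i : ℝ) ^ (h + 1) - (h + 1) * (i : ℝ) ^ h) +
          (h + 1) * (i : ℝ) ^ h := by
      push_cast
      ring
    rw [e]
    have h1 : |((i : ℝ) + 1) * (((i : ℝ) + 1) ^ (h + 1) - (i : ℝ) ^ (h + 1) - (h + 1) * (i : ℝ) ^ h) +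
          (h + 1) * (i : ℝ) ^ h| ≤ p * |((i : ℝ) + 1) ^ (h + 1) - (i : ℝ) ^ (h + 1) -
            (h + 1) * (i : ℝ) ^ h| + (h + 1) * (p : ℝ) ^ h := by
      refine (abs_add_le _ _).trans (add_le_add ?_ ?_)
      · rw [abs_mul, abs_of_nonneg (by positivity)]
        exact mul_le_mul_of_nonneg_right hi (abs_nonneg _)
      · rw [abs_of_nonneg (by positivity)]
        have : (i : ℝ) ≤ p := by linarith
        gcongr
    calc _ ≤ (p * |((i : ℝ) + 1) ^ (h + 1) - (i : ℝ) ^ (h + 1) -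
            (h + 1) * (i : ℝ) ^ h| + (h + 1) * (p : ℝ) ^ h) * (p : ℝ) ^ 2 :=
          mul_le_mul_of_nonneg_right h1 (by positivity)
      _ = p * (|((i : ℝ) + 1) ^ (h + 1) - (i : ℝ) ^ (h + 1) -
            (h + 1) * (i : ℝ) ^ h| * (p : ℝ) ^ 2) + (h + 1) * (p : ℝ) ^ (h + 1 + 1) := by ring
      _ ≤ p * (((h : ℝ) + 1) ^ 2 * (p : ℝ) ^ (h + 1)) + (h + 1) * (p : ℝ) ^ (h + 1 + 1) := by
          gcongr
      _ = (((h : ℝ) + 1) ^ 2 + (h + 1)) * (p : ℝ) ^ (h + 1 + 1) := by ring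
      _ ≤ (((h + 1 : ℕ) : ℝ) + 1) ^ 2 * (p : ℝ) ^ (h + 1 + 1) := by
          gcongr
          push_cast
          nlinarith [Nat.cast_nonneg (α := ℝ) h]

theorem asym (h : ℕ) : ∃ C : ℝ, 0 ≤ C ∧ ∀ p : ℕ, 1 ≤ p → ∀ n : ℕ, n ≤ p →
    |MM (1 - 1 / p) n (2 * h) - dd h * (n : ℝ) ^ h| * p ≤ C * (p : ℝ) ^ h := by
  induction h using Nat.strong_induction_on with
  | _ h ih =>
  rcases Nat.eq_zero_or_pos h with rfl | hh
  · refine ⟨0, le_rfl, fun p hp n hn => ?_⟩
    rw [mul_zero, MM_zero]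
    simp [dd]
  · choose C hC0 hC using ih
    obtain ⟨g, rfl⟩ : ∃ g, h = g + 1 := ⟨h - 1, by omega⟩
    set E : ℕ → ℝ := fun h' => if hh : h' < g + 1 then dd h' + C h' hh else 0 with hE
    have hE0 : ∀ h', 0 ≤ E h' := by
      intro h'
      rw [hE]; dsimp only
      split_ifs with h1
      · have := hC0 h' h1
        have := dd_pos h'
        positivity
      · exact le_rfl
    have hMM : ∀ p : ℕ, 1 ≤ p → ∀ n : ℕ, n ≤ p → ∀ h' < g + 1,
        |MM (1 - 1 / p) n (2 * h')| ≤ E h' * (p : ℝ) ^ h' := by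
      intro p hp n hn h' hh'
      have hp1 : (1 : ℝ) ≤ p := by exact_mod_cast hp
      have hp0 : (0 : ℝ) < p := by linarith
      have h1 := hC h' hh' p hp n hn
      have h2 : |MM (1 - 1 / p) n (2 * h') - dd h' * (n : ℝ) ^ h'| ≤ C h' hh' * (p : ℝ) ^ h' := by
        refine le_trans ?_ h1
        exact le_mul_of_one_le_right (abs_nonneg _) hp1
      have h3 : |MM (1 - 1 / p) n (2 * h')| ≤ |MM (1 - 1 / p) n (2 * h') - dd h' * (n : ℝ) ^ h'| +
          |dd h' * (n : ℝ) ^ h'| := by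
        have := abs_add_le (MM (1 - 1 / p) n (2 * h') - dd h' * (n : ℝ) ^ h') (dd h' * (n : ℝ) ^ h')
        simpa using this
      have h4 : |dd h' * (n : ℝ) ^ h'| ≤ dd h' * (p : ℝ) ^ h' := by
        have := dd_pos h'
        rw [abs_of_nonneg (by positivity)]
        have hn' : (n : ℝ) ≤ p := by exact_mod_cast hn
        gcongr
      rw [hE]; dsimp only
      rw [dif_pos hh']
      calc _ ≤ _ := h3
        _ ≤ C h' hh' * (p : ℝ) ^ h' + dd h' * (p : ℝ) ^ h' := add_le_add h2 h4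
        _ = _ := by ring
    set K : ℝ := ((2 * (g + 1)).choose 2 : ℝ) * E g + dd (g + 1) * ((g : ℝ) + 1) ^ 2 +
      ∑ k ∈ Icc 2 (g + 1), ((2 * (g + 1)).choose (2 * k) : ℝ) * E (g + 1 - k) with hK
    have hK0 : 0 ≤ K := by
      have := hE0 g
      have := dd_pos (g + 1)
      have : 0 ≤ ∑ k ∈ Icc 2 (g + 1), ((2 * (g + 1)).choose (2 * k) : ℝ) * E (g + 1 - k) :=
        Finset.sum_nonneg fun k _ => mul_nonneg (Nat.cast_nonneg _) (hE0 _)
      positivity
    refine ⟨K, hK0, fun p hp n hn => ?_⟩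
    have hp1 : (1 : ℝ) ≤ p := by exact_mod_cast hp
    have hp0 : (0 : ℝ) < p := by linarith
    set θ : ℝ := 1 - 1 / p with hθ
    have hθ0 : 0 ≤ θ := by
      rw [hθ, sub_nonneg, div_le_one hp0]
      exact hp1
    have hθ1 : θ ≤ 1 := by
      rw [hθ]
      have : (0 : ℝ) ≤ 1 / p := by positivity
      linarith
    -- one step
    have step : ∀ i : ℕ, i + 1 ≤ p →
        |(MM θ (i + 1) (2 * (g + 1)) - dd (g + 1) * ((i + 1 : ℕ) : ℝ) ^ (g + 1)) -
          (MM θ i (2 * (g + 1)) - dd (g + 1) * (i : ℝ) ^ (g + 1))| * (p : ℝ) ^ 2 ≤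
          K * (p : ℝ) ^ (g + 1) := by
      intro i hi
      have hi0 : (0 : ℝ) ≤ i := Nat.cast_nonneg i
      have hip : (i : ℝ) ≤ p := by exact_mod_cast (by omega : i ≤ p)
      have e0 : 2 * (g + 1) / 2 = g + 1 := by omega
      have e1 : MM θ (i + 1) (2 * (g + 1)) = MM θ i (2 * (g + 1)) + θ * ∑ k ∈ Icc 1 (g + 1),
          ((2 * (g + 1)).choose (2 * k) : ℝ) * MM θ i (2 * (g + 1 - k)) := by
        rw [MM, e0]
        congr 2
        refine Finset.sum_congr rfl fun k hk => ?_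
        congr 2
        omega
      have e2 : ∑ k ∈ Icc 1 (g + 1), ((2 * (g + 1)).choose (2 * k) : ℝ) * MM θ i (2 * (g + 1 - k)) =
          ((2 * (g + 1)).choose 2 : ℝ) * MM θ i (2 * g) + ∑ k ∈ Icc 2 (g + 1),
            ((2 * (g + 1)).choose (2 * k) : ℝ) * MM θ i (2 * (g + 1 - k)) := by
        rw [← Finset.insert_Icc_succ_left_eq_Icc (by omega : 1 ≤ g + 1), Finset.sum_insert (by simp)]
        simp
      set R := ∑ k ∈ Icc 2 (g + 1), ((2 * (g + 1)).choose (2 * k) : ℝ) *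
        MM θ i (2 * (g + 1 - k)) with hR
      have hch : ((2 * (g + 1)).choose 2 : ℝ) = ((g : ℝ) + 1) * (2 * g + 1) := by
        rw [Nat.cast_choose_two]
        push_cast
        ring
      have e3 : (MM θ (i + 1) (2 * (g + 1)) - dd (g + 1) * ((i + 1 : ℕ) : ℝ) ^ (g + 1)) -
          (MM θ i (2 * (g + 1)) - dd (g + 1) * (i : ℝ) ^ (g + 1)) =
          ((2 * (g + 1)).choose 2 : ℝ) * (θ * (MM θ i (2 * g) - dd g * (i : ℝ) ^ g) -
            1 / p * (dd g * (i : ℝ) ^ g)) + θ * R - dd (g + 1) * (((i : ℝ) + 1) ^ (g + 1) -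
              (i : ℝ) ^ (g + 1) - (g + 1) * (i : ℝ) ^ g) := by
        rw [e1, e2, hch, dd]
        push_cast
        rw [hθ]
        ring
      rw [e3]
      have b1 : |((2 * (g + 1)).choose 2 : ℝ) * (θ * (MM θ i (2 * g) - dd g * (i : ℝ) ^ g) -
            1 / p * (dd g * (i : ℝ) ^ g))| * (p : ℝ) ^ 2 ≤
          ((2 * (g + 1)).choose 2 : ℝ) * E g * (p : ℝ) ^ (g + 1) := by
        have h1 := hC g (by omega) p hp i (by omega)
        rw [← hθ] at h1
        have h2 : |θ * (MM θ i (2 * g) - dd g * (i : ℝ) ^ g) - 1 / p * (dd g * (i : ℝ) ^ g)| * p ≤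
            E g * (p : ℝ) ^ g := by
          have h3 : |θ * (MM θ i (2 * g) - dd g * (i : ℝ) ^ g)| * p ≤ C g (by omega) * (p : ℝ) ^ g := by
            rw [abs_mul, abs_of_nonneg hθ0]
            calc θ * |MM θ i (2 * g) - dd g * (i : ℝ) ^ g| * p ≤
                1 * |MM θ i (2 * g) - dd g * (i : ℝ) ^ g| * p := by gcongr
              _ = |MM θ i (2 * g) - dd g * (i : ℝ) ^ g| * p := by ring
              _ ≤ _ := h1
          have h4 : |1 / p * (dd g * (i : ℝ) ^ g)| * p ≤ dd g * (p : ℝ) ^ g := by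
            have := dd_pos g
            rw [abs_of_nonneg (by positivity)]
            calc 1 / p * (dd g * (i : ℝ) ^ g) * p = dd g * (i : ℝ) ^ g := by field_simp
              _ ≤ _ := by gcongr
          have h5 := abs_sub (θ * (MM θ i (2 * g) - dd g * (i : ℝ) ^ g)) (1 / p * (dd g * (i : ℝ) ^ g))
          have h6 : E g = dd g + C g (by omega) := by
            rw [hE]; dsimp only
            rw [dif_pos (by omega)]
          rw [h6]
          nlinarith
        rw [abs_mul, abs_of_nonneg (by positivity)]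
        calc ((2 * (g + 1)).choose 2 : ℝ) *
            |θ * (MM θ i (2 * g) - dd g * (i : ℝ) ^ g) - 1 / p * (dd g * (i : ℝ) ^ g)| * (p : ℝ) ^ 2 =
            ((2 * (g + 1)).choose 2 : ℝ) * (|θ * (MM θ i (2 * g) - dd g * (i : ℝ) ^ g) -
              1 / p * (dd g * (i : ℝ) ^ g)| * p) * p := by ring
          _ ≤ ((2 * (g + 1)).choose 2 : ℝ) * (E g * (p : ℝ) ^ g) * p := by gcongr
          _ = _ := by ring
      have b2 : |θ * R| * (p : ℝ) ^ 2 ≤ (∑ k ∈ Icc 2 (g + 1),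
          ((2 * (g + 1)).choose (2 * k) : ℝ) * E (g + 1 - k)) * (p : ℝ) ^ (g + 1) := by
        rw [abs_mul, abs_of_nonneg hθ0]
        have h1 : |R| * (p : ℝ) ^ 2 ≤ (∑ k ∈ Icc 2 (g + 1),
            ((2 * (g + 1)).choose (2 * k) : ℝ) * E (g + 1 - k)) * (p : ℝ) ^ (g + 1) := by
          rw [hR]
          refine (mul_le_mul_of_nonneg_right (Finset.abs_sum_le_sum_abs _ _) (by positivity)).trans ?_
          rw [Finset.sum_mul, Finset.sum_mul]
          refine Finset.sum_le_sum fun k hk => ?_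
          rw [Finset.mem_Icc] at hk
          have h2 := hMM p hp i (by omega) (g + 1 - k) (by omega)
          rw [← hθ] at h2
          rw [abs_mul, abs_of_nonneg (by positivity)]
          have h3 : (p : ℝ) ^ (g + 1 - k) * (p : ℝ) ^ 2 ≤ (p : ℝ) ^ (g + 1) := by
            rw [← pow_add]
            exact pow_le_pow_right₀ hp1 (by omega)
          have h4 := hE0 (g + 1 - k)
          calc ((2 * (g + 1)).choose (2 * k) : ℝ) * |MM θ i (2 * (g + 1 - k))| * (p : ℝ) ^ 2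
              ≤ ((2 * (g + 1)).choose (2 * k) : ℝ) * (E (g + 1 - k) * (p : ℝ) ^ (g + 1 - k)) *
                (p : ℝ) ^ 2 := by gcongr
            _ = ((2 * (g + 1)).choose (2 * k) : ℝ) * E (g + 1 - k) *
                ((p : ℝ) ^ (g + 1 - k) * (p : ℝ) ^ 2) := by ring
            _ ≤ _ := by gcongr
        have h2 : 0 ≤ |R| * (p : ℝ) ^ 2 := by positivity
        calc θ * |R| * (p : ℝ) ^ 2 = θ * (|R| * (p : ℝ) ^ 2) := by ring
          _ ≤ 1 * (|R| * (p : ℝ) ^ 2) := mul_le_mul_of_nonneg_right hθ1 h2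
          _ ≤ _ := by rw [one_mul]; exact h1
      have b3 : |dd (g + 1) * (((i : ℝ) + 1) ^ (g + 1) - (i : ℝ) ^ (g + 1) -
          (g + 1) * (i : ℝ) ^ g)| * (p : ℝ) ^ 2 ≤
          dd (g + 1) * ((g : ℝ) + 1) ^ 2 * (p : ℝ) ^ (g + 1) := by
        have h1 := pow_diff g i p hi
        have h2 := dd_pos (g + 1)
        rw [abs_mul, abs_of_pos h2, mul_assoc, mul_assoc]
        gcongr
      set x1 := ((2 * (g + 1)).choose 2 : ℝ) * (θ * (MM θ i (2 * g) - dd g * (i : ℝ) ^ g) -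
            1 / p * (dd g * (i : ℝ) ^ g)) with hx1
      set x3 := dd (g + 1) * (((i : ℝ) + 1) ^ (g + 1) - (i : ℝ) ^ (g + 1) -
          (g + 1) * (i : ℝ) ^ g) with hx3
      have h7 : |x1 + θ * R - x3| ≤ |x1| + |θ * R| + |x3| :=
        (abs_sub _ _).trans (by have := abs_add_le x1 (θ * R); linarith)
      have h8 : (0 : ℝ) ≤ (p : ℝ) ^ 2 := by positivity
      calc |x1 + θ * R - x3| * (p : ℝ) ^ 2 ≤ (|x1| + |θ * R| + |x3|) * (p : ℝ) ^ 2 :=
            mul_le_mul_of_nonneg_right h7 h8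
        _ = |x1| * (p : ℝ) ^ 2 + |θ * R| * (p : ℝ) ^ 2 + |x3| * (p : ℝ) ^ 2 := by ring
        _ ≤ _ := add_le_add (add_le_add b1 b2) b3
        _ = K * (p : ℝ) ^ (g + 1) := by rw [hK]; ring
    -- induction over n
    have key : ∀ n : ℕ, n ≤ p → |MM θ n (2 * (g + 1)) - dd (g + 1) * (n : ℝ) ^ (g + 1)| *
        (p : ℝ) ^ 2 ≤ n * (K * (p : ℝ) ^ (g + 1)) := by
      intro n
      induction n with
      | zero =>
        intro _
        rw [MM, if_neg (by omega)]
        simp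
      | succ n ihn =>
        intro hn'
        have h1 := ihn (by omega)
        have h2 := step n hn'
        set A := MM θ n (2 * (g + 1)) - dd (g + 1) * (n : ℝ) ^ (g + 1) with hA
        set A' := MM θ (n + 1) (2 * (g + 1)) - dd (g + 1) * ((n + 1 : ℕ) : ℝ) ^ (g + 1) with hA'
        have h3 : |A'| ≤ |A' - A| + |A| := by
          have := abs_add_le (A' - A) A
          simpa using this
        have h8 : (0 : ℝ) ≤ (p : ℝ) ^ 2 := by positivity
        calc |A'| * (p : ℝ) ^ 2 ≤ (|A' - A| + |A|) * (p : ℝ) ^ 2 := mul_le_mul_of_nonneg_right h3 h8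
          _ = |A' - A| * (p : ℝ) ^ 2 + |A| * (p : ℝ) ^ 2 := by ring
          _ ≤ K * (p : ℝ) ^ (g + 1) + n * (K * (p : ℝ) ^ (g + 1)) := add_le_add h2 h1
          _ = ((n + 1 : ℕ) : ℝ) * (K * (p : ℝ) ^ (g + 1)) := by push_cast; ring
    have h1 := key n hn
    have hn' : (n : ℝ) ≤ p := by exact_mod_cast hn
    have h2 : |MM θ n (2 * (g + 1)) - dd (g + 1) * (n : ℝ) ^ (g + 1)| * p * p ≤
        K * (p : ℝ) ^ (g + 1) * p := by
      calc _ = |MM θ n (2 * (g + 1)) - dd (g + 1) * (n : ℝ) ^ (g + 1)| * (p : ℝ) ^ 2 := by ring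
        _ ≤ n * (K * (p : ℝ) ^ (g + 1)) := h1
        _ ≤ p * (K * (p : ℝ) ^ (g + 1)) := by gcongr
        _ = _ := by ring
    exact le_of_mul_le_mul_right h2 hp0

end Pool.Agent.X280.UC
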