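import Pool.Agent.X280.BP.Fam
import Pool.Agent.X280.BP.Local
import Pool.Agent.X280.UC.Rec

/-!
# Moments of the Frobenius traces in the family of all hyperelliptic curves
-/

set_option autoImplicit false
set_option linter.unusedSectionVars false

namespace Pool.Agent.X280.UC

open Finset Pool.Agent.Y722.HS Pool.Agent.X280.BP Polynomial

/-- The value at `x` of the monic polynomial of degree `N` with the lower coefficients `c`. -/
def ff {R : Type*} [CommRing R] {N : ℕ} (c : Fin N → R) (x : R) : R :=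
  x ^ N + ∑ i, c i * x ^ (i : ℕ)

variable {p : ℕ} [hp : Fact p.Prime] {N : ℕ}

/-- The sum of the quadratic characters over the points in `A`. -/
noncomputable def SA (A : Finset (ZMod p)) (c : Fin N → ZMod p) : ℝ := ∑ x ∈ A, ch (ff c x)

theorem dir (A : Finset (ZMod p)) (x : ZMod p) (hx : x ∉ A) (hA : A.card + 1 ≤ N) :
    ∃ d : Fin N → ZMod p, (∑ i, d i * x ^ (i : ℕ) = 1) ∧
      ∀ y ∈ A, ∑ i, d i * y ^ (i : ℕ) = 0 := by
  classical
  set s := insert x A with hs
  have hinj : Set.InjOn (id : ZMod p → ZMod p) s := Function.injective_id.injOn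
  set L := Lagrange.basis s id x with hL
  have hdeg : L.natDegree < N := by
    have h1 : L.degree = ((s.card - 1 : ℕ) : WithBot ℕ) :=
      Lagrange.degree_basis hinj (Finset.mem_insert_self x A)
    have h2 : L.natDegree = s.card - 1 := natDegree_eq_of_degree_eq_some h1
    rw [h2, hs, Finset.card_insert_of_notMem hx]
    omega
  have hev : ∀ y, ∑ i : Fin N, L.coeff i * y ^ (i : ℕ) = L.eval y := by
    intro y
    rw [eval_eq_sum_range' hdeg, ← Fin.sum_univ_eq_sum_range (fun i => L.coeff i * y ^ i) N]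
  refine ⟨fun i => L.coeff i, ?_, fun y hy => ?_⟩
  · rw [hev]
    exact Lagrange.eval_basis_self hinj (Finset.mem_insert_self x A)
  · rw [hev]
    have hne : x ≠ y := by rintro rfl; exact hx hy
    have h5 := Lagrange.eval_basis_of_ne (s := s) (v := (id : ZMod p → ZMod p)) hne
      (Finset.mem_insert_of_mem hy)
    exact h5

theorem ff_dir (c d : Fin N → ZMod p) (t x : ZMod p) :
    ff (c + t • d) x = ff c x + t * ∑ i, d i * x ^ (i : ℕ) := by
  unfold ff
  rw [Finset.mul_sum, add_assoc, ← Finset.sum_add_distrib]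
  congr 1
  refine Finset.sum_congr rfl fun i _ => ?_
  simp only [Pi.add_apply, Pi.smul_apply, smul_eq_mul]
  ring

theorem EM_split (φ : ZMod p → ℝ) (F : (Fin N → ZMod p) → ZMod p) (h : (Fin N → ZMod p) → ℝ)
    (d : Fin N → ZMod p) (hF : ∀ c t, F (c + t • d) = F c + t)
    (hh : ∀ c (t : ZMod p), h (c + t • d) = h c) :
    EM p (fun c => φ (F c) * h c) = (∑ u, φ u) / p * EM p h := by
  have h1 := EM_dir d (fun c => φ (F c) * h c)
  have h4 : ∀ c, ∑ t : ZMod p, φ (F (c + t • d)) * h (c + t • d) = (∑ u, φ u) * h c := by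
    intro c
    simp only [hF, hh]
    rw [← Finset.sum_mul]
    congr 1
    exact Fintype.sum_equiv (Equiv.addLeft (F c)) _ _ fun t => rfl
  simp only [h4] at h1
  rw [EM_mul'] at h1
  have hp0 : (0 : ℝ) < p := p_pos'
  rw [div_mul_eq_mul_div, eq_div_iff hp0.ne']
  linarith

theorem EM_ch_SA (A : Finset (ZMod p)) (x : ZMod p) (hx : x ∉ A) (φ : ZMod p → ℝ) (m : ℕ)
    (hm : m + 1 ≤ N) :
    EM p (fun c : Fin N → ZMod p => φ (ff c x) * SA A c ^ m) =
      (∑ u, φ u) / p * EM p (fun c : Fin N → ZMod p => SA A c ^ m) := by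
  classical
  have e : ∀ c : Fin N → ZMod p, SA A c ^ m =
      ∑ t ∈ Fintype.piFinset fun _ : Fin m => A, ∏ i, ch (ff c (t i)) := by
    intro c
    unfold SA
    rw [Finset.sum_pow']
  simp only [e]
  have e1 : ∀ c : Fin N → ZMod p, φ (ff c x) * ∑ t ∈ Fintype.piFinset fun _ : Fin m => A,
      ∏ i, ch (ff c (t i)) = ∑ t ∈ Fintype.piFinset fun _ : Fin m => A,
        φ (ff c x) * ∏ i, ch (ff c (t i)) := fun c => Finset.mul_sum _ _ _
  simp only [e1]
  rw [EM_sum', EM_sum', Finset.mul_sum]
  refine Finset.sum_congr rfl fun t ht => ?_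
  rw [Fintype.mem_piFinset] at ht
  have hcard : (Finset.univ.image t).card + 1 ≤ N := by
    have := Finset.card_image_le (s := (Finset.univ : Finset (Fin m))) (f := t)
    rw [Finset.card_univ, Fintype.card_fin] at this
    omega
  have hxt : x ∉ Finset.univ.image t := by
    rw [Finset.mem_image]
    rintro ⟨i, _, hi⟩
    exact hx (hi ▸ ht i)
  obtain ⟨d, hd1, hd2⟩ := dir (Finset.univ.image t) x hxt hcard
  refine EM_split φ (fun c => ff c x) (fun c => ∏ i, ch (ff c (t i))) d ?_ ?_
  · intro c t'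
    show ff (c + t' • d) x = ff c x + t'
    rw [ff_dir, hd1, mul_one]
  · intro c t'
    show ∏ i, ch (ff (c + t' • d) (t i)) = ∏ i, ch (ff c (t i))
    refine Finset.prod_congr rfl fun i _ => ?_
    rw [ff_dir, hd2 (t i) (Finset.mem_image_of_mem t (Finset.mem_univ i)), mul_zero, add_zero]

theorem ringChar_ne (h3 : 3 ≤ p) : ringChar (ZMod p) ≠ 2 := by
  rw [ZMod.ringChar_zmod_n]
  omega

theorem sum_ch_even {k : ℕ} (hk : 1 ≤ k) : (∑ u : ZMod p, ch u ^ (2 * k)) / p = 1 - 1 / p := by
  have hp0 : (0 : ℝ) < p := p_pos'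
  have e : ∀ u : ZMod p, ch u ^ (2 * k) = 1 - if u = 0 then 1 else 0 := by
    intro u
    rw [pow_mul, ch_sq]
    split_ifs
    · rw [sub_self, zero_pow (by omega)]
    · simp
  simp only [e]
  rw [Finset.sum_sub_distrib, Finset.sum_const, Finset.card_univ, ZMod.card, Finset.sum_ite_eq']
  simp
  field_simp

theorem sum_ch_odd (h3 : 3 ≤ p) {k : ℕ} (hk : Odd k) : (∑ u : ZMod p, ch u ^ k) / p = 0 := by
  have e : ∀ u : ZMod p, ch u ^ k = ch u := by
    intro u
    unfold ch
    by_cases hu : u = 0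
    · rw [hu]
      simp
      exact fun h => by rw [h] at hk; exact absurd hk (by decide)
    · rcases quadraticChar_dichotomy hu with h | h <;> rw [h]
      · simp
      · simp [hk.neg_one_pow]
  simp only [e]
  have h0 : ∑ u : ZMod p, ch u = 0 := by
    unfold ch
    have := quadraticChar_sum_zero (F := ZMod p) (ringChar_ne h3)
    exact_mod_cast this
  rw [h0, zero_div]

/-- The sum over `k` from `1` to `j` of a function which vanishes at the odd numbers. -/
theorem sum_even (j : ℕ) (F : ℕ → ℝ) (hF : ∀ k, Odd k → F k = 0) :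
    ∑ k ∈ range j, F (k + 1) = ∑ k ∈ Icc 1 (j / 2), F (2 * k) := by
  classical
  have e1 : ∑ k ∈ range j, F (k + 1) = ∑ k ∈ Icc 1 j, F k := by
    rw [Finset.range_eq_Ico, Finset.sum_Ico_add' F 0 j 1]
    congr 1
  rw [e1]
  have e2 : ∑ k ∈ Icc 1 (j / 2), F (2 * k) = ∑ k ∈ (Icc 1 (j / 2)).image (fun k => 2 * k), F k := by
    rw [Finset.sum_image]
    intro a _ b _ hab
    simpa using hab
  rw [e2]
  symm
  apply Finset.sum_subset
  · intro k hk
    rw [Finset.mem_image] at hk
    obtain ⟨a, ha, rfl⟩ := hk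
    rw [Finset.mem_Icc] at ha ⊢
    omega
  · intro k hk hk2
    apply hF
    rcases Nat.even_or_odd k with h | h
    · exfalso
      apply hk2
      obtain ⟨a, rfl⟩ := h
      rw [Finset.mem_image]
      rw [Finset.mem_Icc] at hk
      exact ⟨a, by rw [Finset.mem_Icc]; omega, by ring⟩
    · exact h

/-- **The moments of the character sums.** -/
theorem EM_SA (h3 : 3 ≤ p) (A : Finset (ZMod p)) : ∀ j : ℕ, j ≤ N →
    EM p (fun c : Fin N → ZMod p => SA A c ^ j) = MM (1 - 1 / p) A.card j := by
  classical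
  induction A using Finset.induction_on with
  | empty =>
    intro j _
    have e : (fun c : Fin N → ZMod p => SA (∅ : Finset (ZMod p)) c ^ j) =
        fun _ => (if j = 0 then (1 : ℝ) else 0) := by
      funext c
      unfold SA
      rw [Finset.sum_empty]
      split_ifs with h
      · rw [h, pow_zero]
      · rw [zero_pow h]
    rw [e, EM_const', Finset.card_empty, MM]
  | insert x A hx ih =>
    intro j hj
    have e : (fun c : Fin N → ZMod p => SA (insert x A) c ^ j) = fun c =>
        SA A c ^ j + ∑ k ∈ range j, ch (ff c x) ^ (k + 1) * SA A c ^ (j - (k + 1)) *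
          (j.choose (k + 1) : ℝ) := by
      funext c
      have e1 : SA (insert x A) c = ch (ff c x) + SA A c := by
        unfold SA
        rw [Finset.sum_insert hx]
      rw [e1, add_pow, Finset.sum_range_succ']
      simp [add_comm]
    rw [e, EM_add', ih j hj, Finset.card_insert_of_notMem hx, MM, EM_sum']
    congr 1
    have e2 : ∀ k ∈ range j, EM p (fun c : Fin N → ZMod p => ch (ff c x) ^ (k + 1) *
        SA A c ^ (j - (k + 1)) * (j.choose (k + 1) : ℝ)) =
        (j.choose (k + 1) : ℝ) * ((∑ u : ZMod p, ch u ^ (k + 1)) / p *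
          MM (1 - 1 / p) A.card (j - (k + 1))) := by
      intro k hk
      rw [Finset.mem_range] at hk
      have e3 : (fun c : Fin N → ZMod p => ch (ff c x) ^ (k + 1) *
        SA A c ^ (j - (k + 1)) * (j.choose (k + 1) : ℝ)) = fun c => (j.choose (k + 1) : ℝ) *
          ((fun u : ZMod p => ch u ^ (k + 1)) (ff c x) * SA A c ^ (j - (k + 1))) := by
        funext c
        ring
      rw [e3, EM_mul', EM_ch_SA A x hx (fun u => ch u ^ (k + 1)) (j - (k + 1)) (by omega),
        ih _ (by omega)]
    rw [Finset.sum_congr rfl e2]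
    rw [sum_even j (fun k => (j.choose k : ℝ) * ((∑ u : ZMod p, ch u ^ k) / p *
          MM (1 - 1 / p) A.card (j - k))) ?_]
    · rw [Finset.mul_sum]
      refine Finset.sum_congr rfl fun k hk => ?_
      rw [Finset.mem_Icc] at hk
      rw [sum_ch_even hk.1]
      ring
    · intro k hk
      rw [sum_ch_odd h3 hk]
      ring

end Pool.Agent.X280.UC
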