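import Pool.Agent.X280.BP.Tri

/-!
# The normal law for sums of local data, uniformly in the local data
-/

set_option autoImplicit false
set_option linter.unusedSectionVars false

namespace Pool.Agent.X280.UC

open Finset Filter Topology Pool.Agent.Y722.HS Pool.Agent.X280.BP MeasureTheory ProbabilityTheory

variable {ι : Type} [Fintype ι] [DecidableEq ι]

/-- The sum of the local data over the primes in `P`. -/
noncomputable def SP (Z : ∀ p : ℕ, (ι → ZMod p) → ℝ) (P : Finset ℕ) (c : ι → ℤ) : ℝ :=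
  ∑ p ∈ P, Z p (red p c)

/-- Its variance in the model. -/
noncomputable def VP (Z : ∀ p : ℕ, (ι → ZMod p) → ℝ) (P : Finset ℕ) : ℝ := ∑ p ∈ P, vv Z p

/-- Data: a set of primes `P`, a bound `y`, a height `H`, local data `Z`, a statistic `Q`. -/
structure Data (ι : Type) where
  P : Finset ℕ
  y : ℕ
  H : ℕ
  Z : ∀ p : ℕ, (ι → ZMod p) → ℝ
  Q : (ι → ℤ) → ℝ

/-- The data are admissible of level `k`. -/
structure Data.Ok (D : Data ι) (B δ : ℝ) (k : ℕ) : Prop where
  prime : ∀ p ∈ D.P, p.Prime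
  le : ∀ p ∈ D.P, p ≤ D.y
  bound : ∀ p ∈ D.P, ∀ c, |D.Z p c| ≤ B
  mean : ∀ p ∈ D.P, ∀ [NeZero p], EM p (D.Z p) = 0
  var : δ * D.P.card ≤ VP D.Z D.P
  many : k ≤ D.P.card
  high : D.y ^ k ≤ D.H
  near : ∀ c, |D.Q c - SP D.Z D.P c / √(VP D.Z D.P)| ≤ 1 / (k + 1)

theorem Data.Ok.mono {D : Data ι} {B δ : ℝ} {k l : ℕ} (h : D.Ok B δ k) (hl : l ≤ k) :
    D.Ok B δ l where
  prime := h.prime
  le := h.le
  bound := h.bound
  mean := h.mean
  var := h.var
  many := hl.trans h.many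
  high := by
    rcases Nat.eq_zero_or_pos l with rfl | hl0
    · have h1 := h.high
      rcases Nat.eq_zero_or_pos k with rfl | hk0
      · exact h1
      · have h2 : 1 ≤ D.y := by
          obtain ⟨p, hp⟩ : D.P.Nonempty := by
            rw [← Finset.card_pos]; have := h.many; omega
          have := h.le p hp
          have := (h.prime p hp).pos
          omega
        have h3 : 1 ≤ D.y ^ k := Nat.one_le_pow _ _ h2
        simpa using h3.trans h1
    · have h2 : 1 ≤ D.y := by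
        obtain ⟨p, hp⟩ : D.P.Nonempty := by
          rw [← Finset.card_pos]; have := h.many; omega
        have := h.le p hp
        have := (h.prime p hp).pos
        omega
      exact (Nat.pow_le_pow_right h2 hl).trans h.high
  near := fun c => (h.near c).trans (by
    have h1 : (l : ℝ) ≤ k := by exact_mod_cast hl
    have h2 : (0 : ℝ) < (l : ℝ) + 1 := by positivity
    exact one_div_le_one_div_of_le h2 (by linarith))

/-- **Convergence of the characteristic functions, uniformly.** -/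
theorem unif_char {B δ : ℝ} (hB1 : 1 ≤ B) (hδ : 0 < δ) (t : ℝ) {ε : ℝ} (hε : 0 < ε) :
    ∃ k : ℕ, ∀ D : Data ι, D.Ok B δ k →
      ‖EBc D.H (fun c => Complex.exp ((t * D.Q c : ℝ) * Complex.I)) -
        ((Real.exp (-(t ^ 2 / 2)) : ℝ) : ℂ)‖ ≤ ε := by
  classical
  have hB0 : 0 < B := lt_of_lt_of_le one_pos hB1
  set W : ℝ := B ^ 2 / δ with hW
  have hW0 : 0 < W := by positivity
  set n := Fintype.card ι with hn
  set T : ℝ := max 1 |t| with hT
  have hT1 : 1 ≤ T := le_max_left _ _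
  have hT0 : 0 < T := by linarith
  set s : ℝ := t / T with hs
  have hs1 : |s| ≤ 1 := by
    rw [hs, abs_div, abs_of_pos hT0, div_le_one hT0]
    exact le_max_right _ _
  have hsT : s * T = t := by rw [hs]; field_simp
  -- the number of moments
  obtain ⟨k, hk1, hk2, hk3⟩ : ∃ k : ℕ, 1 ≤ k ∧ T ^ 2 * W * Real.exp 1 * 2 ≤ k ∧
      4 * (1 / 2 : ℝ) ^ k ≤ ε / 4 := by
    have h1 : ∀ᶠ k : ℕ in atTop, T ^ 2 * W * Real.exp 1 * 2 ≤ k :=
      tendsto_natCast_atTop_atTop.eventually_ge_atTop _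
    have h2 : Tendsto (fun k : ℕ => 4 * (1 / 2 : ℝ) ^ k) atTop (𝓝 (4 * 0)) :=
      (tendsto_pow_atTop_nhds_zero_of_lt_one (by norm_num) (by norm_num)).const_mul _
    rw [mul_zero] at h2
    have h3 := h2.eventually (ge_mem_nhds (show (0 : ℝ) < ε / 4 by positivity))
    obtain ⟨k, hk⟩ := ((eventually_ge_atTop 1).and (h1.and h3)).exists
    exact ⟨k, hk.1, hk.2.1, hk.2.2⟩
  have hE : (0 : ℝ) < ε / 4 := by positivity
  -- the level
  have hz : ∀ K : ℝ, Tendsto (fun y : ℕ => K / (y : ℝ)) atTop (𝓝 0) := fun K =>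
    tendsto_const_nhds.div_atTop tendsto_natCast_atTop_atTop
  have hz1 : Tendsto (fun y : ℕ => |t| * (1 / ((y : ℝ) + 1))) atTop (𝓝 (|t| * 0)) :=
    (tendsto_one_div_add_atTop_nhds_zero_nat (𝕜 := ℝ)).const_mul _
  have hz2 : Tendsto (fun y : ℕ => (|t| ^ 3 + t ^ 4 * B) * (B * W) / √(δ * (y : ℝ))) atTop (𝓝 0) := by
    refine tendsto_const_nhds.div_atTop ?_
    refine Real.tendsto_sqrt_atTop.comp ?_
    exact tendsto_natCast_atTop_atTop.const_mul_atTop hδ
  rw [mul_zero] at hz1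
  have hz3 : ∀ᶠ y : ℕ in atTop, 1 ≤ δ * y :=
    (tendsto_natCast_atTop_atTop.const_mul_atTop hδ).eventually_ge_atTop 1
  obtain ⟨N, hN⟩ := (((eventually_ge_atTop (4 * k + 4)).and
    ((hz1.eventually (ge_mem_nhds hE)).and (hz2.eventually (ge_mem_nhds hE)))).and
    (hz3.and ((hz (4 * 2 ^ n * (4 * (T * B)) ^ (2 * k) : ℝ)).eventually (ge_mem_nhds hE)))).exists
  obtain ⟨⟨hN4, hN1, hN2⟩, hN3, hN5⟩ := hN
  refine ⟨N, fun D hD => ?_⟩
  set V := VP D.Z D.P with hV
  have hcard : (N : ℝ) ≤ D.P.card := by exact_mod_cast hD.many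
  have hVN : δ * N ≤ V := (mul_le_mul_of_nonneg_left hcard hδ.le).trans hD.var
  have hV1 : 1 ≤ V := hN3.trans hVN
  have hV0 : 0 < V := by linarith
  have hsV : 1 ≤ √V := by rw [Real.one_le_sqrt]; exact hV1
  have hsV0 : 0 < √V := by linarith
  have hsq : √V ^ 2 = V := Real.sq_sqrt hV0.le
  -- the bound y is large
  have hyN : N ≤ D.y := by
    have h1 : D.P ⊆ Finset.Icc 1 D.y := by
      intro p hp
      rw [Finset.mem_Icc]
      exact ⟨(hD.prime p hp).pos, hD.le p hp⟩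
    have h2 := Finset.card_le_card h1
    rw [Nat.card_Icc] at h2
    have := hD.many
    omega
  set y := D.y with hy
  have hy0 : (0 : ℝ) < y := by exact_mod_cast (by omega : 0 < y)
  set I := (Ico 0 (y + 1)).filter Nat.Prime with hI
  have hPI : D.P ⊆ I := by
    intro p hp
    rw [hI, Finset.mem_filter, Finset.mem_Ico]
    have := hD.le p hp
    exact ⟨⟨by omega, by omega⟩, hD.prime p hp⟩
  -- the normalised system
  set Z' : ∀ p : ℕ, (ι → ZMod p) → ℝ := fun p c => if p ∈ D.P then D.Z p c / √V else 0 with hZ'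
  set b : ℕ → ℝ := fun p => if p ∈ D.P then B / √V else 0 with hb
  have hBV : B / √V ≤ B := div_le_self hB0.le hsV
  have hb0 : ∀ p, 0 ≤ b p := by
    intro p; rw [hb]; dsimp only; split_ifs <;> positivity
  have hbB : ∀ p, b p ≤ B := by
    intro p; rw [hb]; dsimp only; split_ifs
    · exact hBV
    · exact hB0.le
  have hZb : ∀ p c, |Z' p c| ≤ b p := by
    intro p c
    rw [hZ', hb]; dsimp only
    split_ifs with h
    · rw [abs_div, abs_of_pos hsV0]
      exact div_le_div_of_nonneg_right (hD.bound p h c) hsV0.le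
    · simp
  have hZm : ∀ p, ∀ [NeZero p], EM p (Z' p) = 0 := by
    intro p _
    rw [hZ']; dsimp only
    split_ifs with h
    · have e : (fun c => D.Z p c / √V) = fun c => (1 / √V) * D.Z p c := by
        funext c; ring
      rw [e, EM_mul', hD.mean p h, mul_zero]
    · exact EM_const' p 0
  have hsum : ∀ F : ℕ → ℝ, ∑ p ∈ I, (if p ∈ D.P then F p else 0) = ∑ p ∈ D.P, F p := by
    intro F
    rw [← Finset.sum_filter]
    congr 1
    ext p
    rw [Finset.mem_filter]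
    exact ⟨fun h => h.2, fun h => ⟨hPI h, h⟩⟩
  have hSS : ∀ c, SS Z' 0 (y + 1) c = SP D.Z D.P c / √V := by
    intro c
    unfold SS SP
    rw [← hI, Finset.sum_div]
    exact hsum (fun p => D.Z p (red p c) / √V)
  have hbs : ∑ p ∈ I, b p ^ 2 ≤ W := by
    have e : ∑ p ∈ I, b p ^ 2 = ∑ p ∈ D.P, (B / √V) ^ 2 := by
      rw [← hsum (fun _ => (B / √V) ^ 2)]
      refine Finset.sum_congr rfl fun p _ => ?_
      rw [hb]; dsimp only; split_ifs <;> simp
    rw [e, Finset.sum_const, nsmul_eq_mul, div_pow, hsq, hW, mul_div_assoc', div_le_div_iff₀ hV0 hδ]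
    have := hD.var
    rw [← hV] at this
    calc (D.P.card : ℝ) * B ^ 2 * δ = B ^ 2 * (δ * D.P.card) := by ring
      _ ≤ B ^ 2 * V := mul_le_mul_of_nonneg_left this (by positivity)
  have hb3 : ∑ p ∈ I, b p ^ 3 ≤ B * W / √(δ * N) := by
    have h1 : ∀ p ∈ I, b p ^ 3 ≤ B / √V * b p ^ 2 := by
      intro p _
      have h2 : b p ≤ B / √V := by
        rw [hb]; dsimp only; split_ifs
        · exact le_rfl
        · positivity
      calc b p ^ 3 = b p * b p ^ 2 := by ring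
        _ ≤ _ := mul_le_mul_of_nonneg_right h2 (by positivity)
    refine (Finset.sum_le_sum h1).trans ?_
    rw [← Finset.mul_sum]
    have h3 : √(δ * N) ≤ √V := Real.sqrt_le_sqrt hVN
    have h4 : 0 < √(δ * N) := Real.sqrt_pos.2 (by linarith)
    have h5 : B / √V ≤ B / √(δ * N) := div_le_div_of_nonneg_left hB0.le h4 h3
    calc B / √V * ∑ p ∈ I, b p ^ 2 ≤ B / √(δ * N) * W := by gcongr
      _ = B * W / √(δ * N) := by ring
  have hvv : ∑ p ∈ I, vv Z' p = 1 := by
    have e : ∑ p ∈ I, vv Z' p = ∑ p ∈ I, (if p ∈ D.P then vv D.Z p / V else 0) := by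
      refine Finset.sum_congr rfl fun p hp => ?_
      have hpp : p.Prime := (Finset.mem_filter.1 hp).2
      have : NeZero p := ⟨hpp.ne_zero⟩
      rw [vv_eq, vv_eq]
      by_cases h : p ∈ D.P
      · simp only [hZ', h, if_true]
        have e2 : (fun c => (D.Z p c / √V) ^ 2) = fun c => (1 / V) * D.Z p c ^ 2 := by
          funext c
          rw [div_pow, hsq]; ring
        rw [e2, EM_mul']
        ring
      · simp only [hZ', h, if_false]
        have e2 : (fun _ : ι → ZMod p => (0 : ℝ) ^ 2) = fun _ => (0 : ℝ) := by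
          funext c; simp
        rw [e2, EM_const']
    rw [e, hsum, ← Finset.sum_div]
    exact div_self hV0.ne'
  have hcond : (y + 1) ^ (2 * k) ≤ 2 * D.H + 1 := by
    have h1 : (y + 1) ^ (2 * k) ≤ (2 * y) ^ (2 * k) := Nat.pow_le_pow_left (by omega) _
    have h2 : (2 * y) ^ (2 * k) ≤ y ^ (4 * k + 1) := by
      calc (2 * y) ^ (2 * k) ≤ (y * y) ^ (2 * k) := Nat.pow_le_pow_left
            (Nat.mul_le_mul_right y (by omega)) _
        _ = y ^ (4 * k) := by rw [← pow_two, ← pow_mul]; ring_nf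
        _ ≤ y ^ (4 * k + 1) := Nat.pow_le_pow_right (by omega) (by omega)
    have h3 : y ^ (4 * k + 1) ≤ y ^ N := Nat.pow_le_pow_right (by omega) (by omega)
    have h4 : y ^ N ≤ D.H := hD.high
    omega
  -- comparison with the model
  have hA := charG (fun p c => T * Z' p c) (fun p => T * b p) (B := T * B) (by nlinarith)
    (x := y + 1) (H := D.H) (m := k) (by omega) hk1 hcond
    (fun p hp c => by rw [abs_mul, abs_of_pos hT0]; exact mul_le_mul_of_nonneg_left (hZb p c) hT0.le)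
    (fun p hp => mul_le_mul_of_nonneg_left (hbB p) hT0.le)
    (fun p hp _ => by rw [EM_mul', hZm p, mul_zero]) (s := s) (W := T ^ 2 * W) hs1
    (by positivity) (by
      have e : ∑ p ∈ (Ico 0 (y + 1)).filter Nat.Prime, (T * b p) ^ 2 =
          T ^ 2 * ∑ p ∈ (Ico 0 (y + 1)).filter Nat.Prime, b p ^ 2 := by
        rw [Finset.mul_sum]
        refine Finset.sum_congr rfl fun p _ => ?_
        ring
      rw [e]
      exact mul_le_mul_of_nonneg_left hbs (by positivity))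
  rw [← hn, phi_scale, hsT] at hA
  have eA : ∀ c, s * SS (fun p c => T * Z' p c) 0 (y + 1) c = t * (SP D.Z D.P c / √V) := by
    intro c
    rw [SS_scale, ← mul_assoc, hsT, hSS]
  simp only [eA] at hA
  have hA1 : 4 * 2 ^ n * (T * B * ((y + 1 : ℕ) : ℝ) ^ 2) ^ (2 * k) / (2 * D.H + 1) ≤ ε / 4 := by
    have h1 : (T * B * ((y + 1 : ℕ) : ℝ) ^ 2) ^ (2 * k) ≤ (4 * (T * B) * (y : ℝ) ^ 2) ^ (2 * k) := by
      apply pow_le_pow_left₀ (by positivity)
      have h2 : ((y + 1 : ℕ) : ℝ) ≤ 2 * y := by exact_mod_cast (by omega : y + 1 ≤ 2 * y)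
      calc T * B * ((y + 1 : ℕ) : ℝ) ^ 2 ≤ T * B * (2 * y) ^ 2 := by gcongr
        _ = 4 * (T * B) * (y : ℝ) ^ 2 := by ring
    have h3 : (y : ℝ) ^ (4 * k + 1) ≤ 2 * D.H + 1 := by
      have h4 : (y : ℝ) ^ N ≤ D.H := by exact_mod_cast hD.high
      have h5 : (y : ℝ) ^ (4 * k + 1) ≤ (y : ℝ) ^ N :=
        pow_le_pow_right₀ (by exact_mod_cast (by omega : 1 ≤ y)) (by omega)
      linarith
    have hpos : (0 : ℝ) < (y : ℝ) ^ (4 * k + 1) := by positivity
    have hyN' : (N : ℝ) ≤ y := by exact_mod_cast hyN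
    have hN0 : (0 : ℝ) < N := by exact_mod_cast (by omega : 0 < N)
    calc 4 * 2 ^ n * (T * B * ((y + 1 : ℕ) : ℝ) ^ 2) ^ (2 * k) / (2 * D.H + 1)
        ≤ 4 * 2 ^ n * (4 * (T * B) * (y : ℝ) ^ 2) ^ (2 * k) / (y : ℝ) ^ (4 * k + 1) := by gcongr
      _ = (4 * 2 ^ n * (4 * (T * B)) ^ (2 * k) / (y : ℝ) : ℝ) := by
          rw [mul_pow, ← pow_mul, show 2 * (2 * k) = 4 * k by ring, pow_succ]
          field_simp
      _ ≤ (4 * 2 ^ n * (4 * (T * B)) ^ (2 * k) / (N : ℝ) : ℝ) := by gcongr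
      _ ≤ ε / 4 := hN5
  have hA2 : 4 * (s ^ 2 * (T ^ 2 * W) * Real.exp 1 / k) ^ k ≤ ε / 4 := by
    refine le_trans ?_ hk3
    have hk0 : (0 : ℝ) < k := by exact_mod_cast hk1
    have hs2 : s ^ 2 ≤ 1 := by rw [← sq_abs]; exact pow_le_one₀ (abs_nonneg _) hs1
    have h1 : s ^ 2 * (T ^ 2 * W) * Real.exp 1 / k ≤ 1 / 2 := by
      rw [div_le_iff₀ hk0]
      have h6 : s ^ 2 * (T ^ 2 * W) * Real.exp 1 ≤ (1 : ℝ) * (T ^ 2 * W) * Real.exp 1 := by gcongr
      linarith
    gcongr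
  -- the model
  have hB' := phiG Z' b (y + 1) (fun p _ c => hZb p c) (fun p _ => hZm p) t
  rw [← hI, hvv, mul_one] at hB'
  have hB2 : ∑ p ∈ I, (|t| ^ 3 * b p ^ 3 + t ^ 4 * b p ^ 4) ≤ ε / 4 := by
    refine le_trans ?_ hN2
    have h1 : ∑ p ∈ I, (|t| ^ 3 * b p ^ 3 + t ^ 4 * b p ^ 4) ≤
        (|t| ^ 3 + t ^ 4 * B) * ∑ p ∈ I, b p ^ 3 := by
      rw [Finset.mul_sum]
      refine Finset.sum_le_sum fun p hp => ?_
      have h4 : b p ^ 4 ≤ B * b p ^ 3 := by
        rw [show b p ^ 4 = b p * b p ^ 3 by ring]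
        exact mul_le_mul_of_nonneg_right (hbB p) (by have := hb0 p; positivity)
      have h5 : t ^ 4 * b p ^ 4 ≤ t ^ 4 * (B * b p ^ 3) :=
        mul_le_mul_of_nonneg_left h4 (by positivity)
      calc |t| ^ 3 * b p ^ 3 + t ^ 4 * b p ^ 4 ≤ |t| ^ 3 * b p ^ 3 + t ^ 4 * (B * b p ^ 3) := by
            linarith
        _ = (|t| ^ 3 + t ^ 4 * B) * b p ^ 3 := by ring
    refine h1.trans ?_
    have h2 : 0 ≤ |t| ^ 3 + t ^ 4 * B := by positivity
    calc (|t| ^ 3 + t ^ 4 * B) * ∑ p ∈ I, b p ^ 3 ≤ (|t| ^ 3 + t ^ 4 * B) * (B * W / √(δ * N)) :=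
          mul_le_mul_of_nonneg_left hb3 h2
      _ = _ := by ring
  -- the remainder
  have hR : ‖EBc D.H (fun c => Complex.exp ((t * D.Q c : ℝ) * Complex.I)) -
      EBc D.H (fun c => Complex.exp ((t * (SP D.Z D.P c / √V) : ℝ) * Complex.I))‖ ≤ ε / 4 := by
    rw [← EBc_sub]
    refine (norm_EBc_le D.H _ (fun _ => |t| * (1 / ((N : ℝ) + 1))) fun c => ?_).trans ?_
    · refine (norm_exp_sub _ _).trans ?_
      rw [← mul_sub, abs_mul]
      exact mul_le_mul_of_nonneg_left (hD.near c) (abs_nonneg _)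
    · rw [Pool.Agent.X280.BP.EB_const]
      exact hN1
  set X := EBc D.H (fun c => Complex.exp ((t * (SP D.Z D.P c / √V) : ℝ) * Complex.I)) with hX
  have e : EBc D.H (fun c => Complex.exp ((t * D.Q c : ℝ) * Complex.I)) -
      ((Real.exp (-(t ^ 2 / 2)) : ℝ) : ℂ) =
      (EBc D.H (fun c => Complex.exp ((t * D.Q c : ℝ) * Complex.I)) - X) +
      ((X - phi Z' (y + 1) t) + (phi Z' (y + 1) t - ((Real.exp (-(t ^ 2 / 2)) : ℝ) : ℂ))) := by ring
  rw [e]
  have h1 := hA.trans (add_le_add hA1 hA2)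
  have h2 := hB'.trans hB2
  have h3 := norm_add_le (EBc D.H (fun c => Complex.exp ((t * D.Q c : ℝ) * Complex.I)) - X)
    ((X - phi Z' (y + 1) t) + (phi Z' (y + 1) t - ((Real.exp (-(t ^ 2 / 2)) : ℝ) : ℂ)))
  have h4 := norm_add_le (X - phi Z' (y + 1) t)
    (phi Z' (y + 1) t - ((Real.exp (-(t ^ 2 / 2)) : ℝ) : ℂ))
  linarith

/-- **The normal law, uniformly in the data.** -/
theorem unif_law {B δ : ℝ} (hB1 : 1 ≤ B) (hδ : 0 < δ) (u : ℝ) {ε : ℝ} (hε : 0 < ε) :
    ∃ k : ℕ, ∀ D : Data ι, D.Ok B δ k →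
      |(law D.H D.Q).real (Set.Iic u) - (gaussianReal 0 1).real (Set.Iic u)| ≤ ε := by
  by_contra hcon
  push Not at hcon
  choose Ds h1 h2 using hcon
  set μ : ℕ → ProbabilityMeasure ℝ := fun j => ⟨law (Ds j).H (Ds j).Q, inferInstance⟩ with hμ
  set ν' : ProbabilityMeasure ℝ := ⟨gaussianReal 0 1, inferInstance⟩ with hν
  have hconv : Tendsto μ atTop (𝓝 ν') := by
    rw [ProbabilityMeasure.tendsto_iff_tendsto_charFun]
    intro t
    rw [hν]
    change Tendsto (fun j => charFun (law (Ds j).H (Ds j).Q) t) atTop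
      (𝓝 (charFun (gaussianReal 0 1) t))
    rw [Metric.tendsto_atTop]
    intro e he
    obtain ⟨k, hk⟩ := unif_char (ι := ι) hB1 hδ t (half_pos he)
    refine ⟨k, fun j hj => ?_⟩
    rw [law_char, dist_eq_norm, charFun_gaussianReal]
    have e1 : Complex.exp ((t : ℂ) * ((0 : ℝ) : ℂ) * Complex.I - (((1 : NNReal) : ℝ) : ℂ) * t ^ 2 / 2) =
        ((Real.exp (-(t ^ 2 / 2)) : ℝ) : ℂ) := by
      push_cast
      congr 1
      ring
    have e2 := hk (Ds j) ((h1 j).mono hj)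
    rw [← e1] at e2
    exact lt_of_le_of_lt e2 (by linarith)
  have hfr : (ν' : Measure ℝ) (frontier (Set.Iic u)) = 0 := by
    rw [frontier_Iic]
    have := nullSingletonClass_gaussianReal (μ := 0) (v := 1) one_ne_zero
    exact measure_singleton (μ := gaussianReal 0 1) u
  have h4 := ProbabilityMeasure.tendsto_measure_of_null_frontier_of_tendsto' hconv hfr
  have h5 : Tendsto (fun j => (law (Ds j).H (Ds j).Q).real (Set.Iic u)) atTop
      (𝓝 ((gaussianReal 0 1).real (Set.Iic u))) :=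
    (ENNReal.tendsto_toReal (measure_ne_top _ _)).comp h4
  rw [Metric.tendsto_atTop] at h5
  obtain ⟨N, hN⟩ := h5 ε hε
  have h6 := hN N le_rfl
  rw [Real.dist_eq] at h6
  have h7 := h2 N
  linarith

end Pool.Agent.X280.UC
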